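import Pool.Agent.K1H19.Kom.Stm

/-!
# Rounding of at most 64 columns (`S_RND`) and vertices (`S_VTX`)
-/

namespace Pool.Agent.K1H58.Kom

open Finset K19Kom

theorem t_RND : S_RND := by
  intro d n a x ha hx hF
  classical
  refine ⟨fun j => if |x j| = 1 then x j else 1, fun j => ?_, fun i => ?_⟩
  · by_cases h : |x j| = 1
    · simp only [h, if_true]
      exact eq_or_eq_neg_of_abs_eq h
    · simp [h]
  · have hle : ∀ j, |a i j| ≤ 1 := by
      intro j
      have h1 : a i j ^ 2 ≤ 1 :=
        (Finset.single_le_sum (f := fun i => a i j ^ 2) (fun k _ => sq_nonneg _)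
          (Finset.mem_univ i)).trans (ha j)
      exact (sq_le_one_iff_abs_le_one _).1 h1
    have hb : ∀ j, |a i j * ((if |x j| = 1 then x j else 1) - x j)| ≤
        if |x j| < 1 then (2 : ℝ) else 0 := by
      intro j
      by_cases h : |x j| = 1
      · simp [h]
      · have hlt : |x j| < 1 := lt_of_le_of_ne (hx j) h
        simp only [h, if_false, hlt, if_true]
        rw [abs_mul]
        have h2 : |1 - x j| ≤ 2 := by
          have := abs_lt.1 hlt
          rw [abs_le]; constructor <;> linarith [this.1, this.2]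
        calc |a i j| * |1 - x j| ≤ 1 * 2 :=
              mul_le_mul (hle j) h2 (abs_nonneg _) (by norm_num)
          _ = 2 := by norm_num
    calc |∑ j, a i j * ((if |x j| = 1 then x j else 1) - x j)|
        ≤ ∑ j, |a i j * ((if |x j| = 1 then x j else 1) - x j)| :=
          Finset.abs_sum_le_sum_abs _ _
      _ ≤ ∑ j, (if |x j| < 1 then (2 : ℝ) else 0) := Finset.sum_le_sum fun j _ => hb j
      _ = ((Finset.univ.filter (fun j => |x j| < 1)).card : ℝ) * 2 := by
          rw [← Finset.sum_filter, Finset.sum_const, nsmul_eq_mul]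
      _ ≤ 128 := by linarith

/-- A nonzero kernel vector supported on a set of more than `d` coordinates. -/
theorem kernel_vec {d n : ℕ} (a : Fin d → Fin n → ℝ) (F : Finset (Fin n)) (hF : d < F.card) :
    ∃ v : Fin n → ℝ, (∀ j, j ∉ F → v j = 0) ∧ (∃ j, v j ≠ 0) ∧ ∀ i, ∑ j, a i j * v j = 0 := by
  classical
  let f : (F → ℝ) →ₗ[ℝ] (Fin d → ℝ) :=
    Matrix.mulVecLin (Matrix.of fun (i : Fin d) (j : F) => a i j.1)
  have hk : LinearMap.ker f ≠ ⊥ := by
    apply LinearMap.ker_ne_bot_of_finrank_lt
    simpa using hF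
  obtain ⟨u, hu, hu0⟩ := (Submodule.ne_bot_iff _).1 hk
  have hu' : ∀ i, ∑ j : F, a i j.1 * u j = 0 := by
    intro i
    have := congrFun (LinearMap.mem_ker.1 hu) i
    simpa [f, Matrix.mulVec, dotProduct] using this
  refine ⟨fun j => if h : j ∈ F then u ⟨j, h⟩ else 0, fun j hj => by simp [hj], ?_, fun i => ?_⟩
  · obtain ⟨j, hj⟩ := Function.ne_iff.1 hu0
    exact ⟨j.1, by simpa using hj⟩
  · rw [← Finset.sum_subset (Finset.subset_univ F) (by intro j _ hj; simp [hj]),
      ← Finset.sum_coe_sort]
    rw [← hu' i]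
    refine Finset.sum_congr rfl fun j _ => ?_
    simp

/-- One step: a point with more than `d` fractional coordinates can be moved to one with fewer. -/
theorem step {d n : ℕ} (a : Fin d → Fin n → ℝ) (x : Fin n → ℝ) (hx : ∀ j, |x j| ≤ 1)
    (hF : d < (Finset.univ.filter (fun j => |x j| < 1)).card) :
    ∃ y : Fin n → ℝ, (∀ j, |y j| ≤ 1) ∧ (∀ i, ∑ j, a i j * (y j - x j) = 0) ∧
      (Finset.univ.filter (fun j => |y j| < 1)).card <
        (Finset.univ.filter (fun j => |x j| < 1)).card := by
  classical
  obtain ⟨v, hv0, ⟨j0, hj0⟩, hv⟩ := kernel_vec a _ hF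
  -- the step sizes
  let t : Fin n → ℝ := fun j => (|v j| - v j * x j) / v j ^ 2
  obtain ⟨k, hk, hkmin⟩ := Finset.exists_min_image (Finset.univ.filter (fun j => v j ≠ 0)) t
    ⟨j0, by simp [hj0]⟩
  have hk0 : v k ≠ 0 := (Finset.mem_filter.1 hk).2
  have hvx : ∀ j, v j * x j ≤ |v j| := by
    intro j
    calc v j * x j ≤ |v j * x j| := le_abs_self _
      _ = |v j| * |x j| := abs_mul _ _
      _ ≤ |v j| * 1 := mul_le_mul_of_nonneg_left (hx j) (abs_nonneg _)
      _ = |v j| := mul_one _
  have htk : 0 ≤ t k := div_nonneg (by linarith [hvx k]) (sq_nonneg _)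
  have hmem : ∀ j, v j ≠ 0 → |x j| < 1 := by
    intro j hj
    by_contra h
    exact hj (hv0 j (by simpa using not_lt.1 h))
  -- the bound for every coordinate
  have hup : ∀ j, v j * (x j + t k * v j) ≤ |v j| := by
    intro j
    by_cases hj : v j = 0
    · simp [hj]
    · have h1 : t k ≤ t j := hkmin j (by simp [hj])
      have h2 : 0 < v j ^ 2 := by positivity
      have h3 : t j * v j ^ 2 = |v j| - v j * x j := by
        simp only [t]; field_simp
      have h4 : t k * v j ^ 2 ≤ t j * v j ^ 2 := mul_le_mul_of_nonneg_right h1 h2.le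
      nlinarith
  have hlow : ∀ j, -|v j| ≤ v j * (x j + t k * v j) := by
    intro j
    have h1 : -|v j| ≤ v j * x j := by
      have := neg_abs_le (v j * x j)
      have h2 : |v j * x j| ≤ |v j| := by
        rw [abs_mul]
        calc |v j| * |x j| ≤ |v j| * 1 := mul_le_mul_of_nonneg_left (hx j) (abs_nonneg _)
          _ = |v j| := mul_one _
      linarith
    have h3 : 0 ≤ t k * v j ^ 2 := mul_nonneg htk (sq_nonneg _)
    nlinarith
  have hy : ∀ j, |x j + t k * v j| ≤ 1 := by
    intro j
    by_cases hj : v j = 0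
    · simpa [hj] using hx j
    · have h1 : |v j| * |x j + t k * v j| ≤ |v j| := by
        rw [← abs_mul]; exact abs_le.2 ⟨hlow j, hup j⟩
      have h2 : 0 < |v j| := abs_pos.2 hj
      by_contra hc
      push Not at hc
      nlinarith
  refine ⟨fun j => x j + t k * v j, hy, fun i => ?_, ?_⟩
  · have : ∀ j, a i j * (x j + t k * v j - x j) = t k * (a i j * v j) := fun j => by ring
    simp only [this, ← Finset.mul_sum, hv i, mul_zero]
  · apply Finset.card_lt_card
    rw [Finset.ssubset_iff_of_subset]
    · refine ⟨k, by simpa using hmem k hk0, ?_⟩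
      simp only [Finset.mem_filter, Finset.mem_univ, true_and, not_lt]
      have h3 : t k * v k ^ 2 = |v k| - v k * x k := by
        simp only [t]; field_simp
      have h4 : v k * (x k + t k * v k) = |v k| := by nlinarith
      have h5 : |v k| * |x k + t k * v k| = |v k| := by
        rw [← abs_mul, h4, abs_abs]
      have h6 : 0 < |v k| := abs_pos.2 hk0
      have h7 : |x k + t k * v k| = 1 := by
        have : |v k| * |x k + t k * v k| = |v k| * 1 := by rw [h5, mul_one]
        exact mul_left_cancel₀ h6.ne' this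
      exact h7.ge
    · intro j hj
      simp only [Finset.mem_filter, Finset.mem_univ, true_and] at hj ⊢
      by_cases h0 : v j = 0
      · simpa [h0] using hj
      · exact hmem j h0

theorem t_VTX : S_VTX := by
  intro d n a x0 hx0
  classical
  have key : ∀ (N : ℕ) (x : Fin n → ℝ), (∀ j, |x j| ≤ 1) →
      (Finset.univ.filter (fun j => |x j| < 1)).card = N →
      ∃ y : Fin n → ℝ, (∀ j, |y j| ≤ 1) ∧ (∀ i, ∑ j, a i j * (y j - x j) = 0) ∧
        (Finset.univ.filter (fun j => |y j| < 1)).card ≤ d := by
    intro N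
    induction N using Nat.strong_induction_on with
    | _ N ih =>
      intro x hx hN
      by_cases hd : N ≤ d
      · exact ⟨x, hx, fun i => by simp, by omega⟩
      · obtain ⟨y, hy, hxy, hlt⟩ := step a x hx (by omega)
        obtain ⟨z, hz, hyz, hzd⟩ := ih _ (hN ▸ hlt) y hy rfl
        refine ⟨z, hz, fun i => ?_, hzd⟩
        have : ∀ j, a i j * (z j - x j) = a i j * (z j - y j) + a i j * (y j - x j) :=
          fun j => by ring
        simp only [this, Finset.sum_add_distrib, hxy i, hyz i, add_zero]
  exact key _ x0 hx0 rfl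

end Pool.Agent.K1H58.Kom

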