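import Pool.Agent.K1H46.CP.Stm
import Pool.Agent.H510R2.Div

/-! # CP-POW: forms whose discriminant is divisible by a sixteenth power  (helper58) -/

set_option autoImplicit false

namespace Pool.Agent.K1H58.CPP

open Pool.Agent.K1H46.CP
open Finset

/-- interpolation of the discriminant as a quadratic polynomial in the last coefficient -/
theorem interp (a b c x y z : ℤ) :
    dsc a b c x * (y - z) - dsc a b c y * (x - z) + dsc a b c z * (x - y) =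
      -(27 * a ^ 2) * ((x - y) * (x - z) * (y - z)) := by
  unfold dsc; ring

/-- three different last coefficients are not too close -/
theorem not_close (a b c x y z : ℤ) (t : ℕ) (ht : 1 ≤ t) (hg : Int.gcd a ((t : ℤ) ^ 8) ≤ t ^ 2)
    (hx : (t : ℤ) ^ 16 ∣ dsc a b c x) (hy : (t : ℤ) ^ 16 ∣ dsc a b c y) (hz : (t : ℤ) ^ 16 ∣ dsc a b c z)
    (hxy : x ≠ y) (hxz : x ≠ z) (hyz : y ≠ z) (h1 : 3 * |x - y| < (t : ℤ) ^ 4) (h2 : 3 * |x - z| < (t : ℤ) ^ 4)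
    (h3 : 3 * |y - z| < (t : ℤ) ^ 4) : False := by
  set X : ℤ := (x - y) * (x - z) * (y - z) with hX
  have ht0 : (0 : ℤ) < t := by exact_mod_cast ht
  have hX0 : X ≠ 0 := by
    rw [hX]
    exact mul_ne_zero (mul_ne_zero (sub_ne_zero.2 hxy) (sub_ne_zero.2 hxz)) (sub_ne_zero.2 hyz)
  have hdvd : (t : ℤ) ^ 16 ∣ 27 * a ^ 2 * X := by
    have h := interp a b c x y z
    rw [← hX] at h
    have h' : 27 * a ^ 2 * X = -(dsc a b c x * (y - z) - dsc a b c y * (x - z) + dsc a b c z * (x - y)) := by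
      rw [h]; ring
    rw [h']
    exact (dvd_neg.2 (dvd_add (dvd_sub (hx.mul_right _) (hy.mul_right _)) (hz.mul_right _)))
  set h : ℕ := Int.gcd a ((t : ℤ) ^ 8) with hh
  have hh0 : 0 < h := Int.gcd_pos_of_ne_zero_right _ (by positivity)
  have hhz : (0 : ℤ) < h := by exact_mod_cast hh0
  obtain ⟨a', ha'⟩ : (h : ℤ) ∣ a := Int.gcd_dvd_left _ _
  obtain ⟨m', hm'⟩ : (h : ℤ) ∣ (t : ℤ) ^ 8 := Int.gcd_dvd_right _ _
  have hcop : IsCoprime m' a' := by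
    rw [Int.isCoprime_iff_gcd_eq_one]
    have e : h = h * Int.gcd m' a' := by
      calc h = Int.gcd a ((t : ℤ) ^ 8) := hh
        _ = Int.gcd (h * a') (h * m') := by rw [← ha', ← hm']
        _ = h * Int.gcd m' a' := by rw [Int.gcd_mul_left, Int.natAbs_natCast, Int.gcd_comm]
    exact Nat.eq_of_mul_eq_mul_left hh0 (by rw [← e, mul_one])
  have h16 : (t : ℤ) ^ 16 = (h : ℤ) ^ 2 * m' ^ 2 := by
    calc (t : ℤ) ^ 16 = ((t : ℤ) ^ 8) ^ 2 := by ring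
      _ = _ := by rw [hm']; ring
  have hd2 : m' ^ 2 ∣ 27 * X := by
    have e1 : (h : ℤ) ^ 2 * m' ^ 2 ∣ (h : ℤ) ^ 2 * (a' ^ 2 * (27 * X)) := by
      rw [← h16]
      refine hdvd.trans (dvd_of_eq ?_)
      rw [ha']; ring
    have e2 : m' ^ 2 ∣ a' ^ 2 * (27 * X) := Int.dvd_of_mul_dvd_mul_left (by positivity) e1 
    exact (hcop.pow (m := 2) (n := 2)).dvd_of_dvd_mul_left e2
  have hle : m' ^ 2 ≤ |27 * X| := Int.le_of_dvd (abs_pos.2 (mul_ne_zero (by norm_num) hX0)) ((dvd_abs _ _).2 hd2)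
  -- `m' ^ 2 ≥ t ^ 12`
  have hhle : (h : ℤ) ≤ (t : ℤ) ^ 2 := by exact_mod_cast hg
  have hm12 : (t : ℤ) ^ 12 ≤ m' ^ 2 := by
    have e1 : (h : ℤ) ^ 2 ≤ (t : ℤ) ^ 4 := by
      calc (h : ℤ) ^ 2 ≤ ((t : ℤ) ^ 2) ^ 2 := pow_le_pow_left₀ hhz.le hhle 2
        _ = _ := by ring
    have e2 : (t : ℤ) ^ 12 * (t : ℤ) ^ 4 ≤ m' ^ 2 * (t : ℤ) ^ 4 := by
      calc (t : ℤ) ^ 12 * (t : ℤ) ^ 4 = (t : ℤ) ^ 16 := by ring
        _ = (h : ℤ) ^ 2 * m' ^ 2 := h16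
        _ ≤ (t : ℤ) ^ 4 * m' ^ 2 := mul_le_mul_of_nonneg_right e1 (sq_nonneg _)
        _ = _ := by ring
    exact le_of_mul_le_mul_right e2 (by positivity)
  have hXle : |27 * X| < (t : ℤ) ^ 12 := by
    have e1 : |27 * X| = (3 * |x - y|) * (3 * |x - z|) * (3 * |y - z|) := by
      rw [hX, abs_mul, abs_mul, abs_mul]
      norm_num
      ring
    rw [e1]
    calc (3 * |x - y|) * (3 * |x - z|) * (3 * |y - z|)
        < (t : ℤ) ^ 4 * (t : ℤ) ^ 4 * (t : ℤ) ^ 4 := by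
          refine mul_lt_mul'' (mul_lt_mul'' h1 h2 (by positivity) (by positivity)) h3 (by positivity) (by positivity)
      _ = (t : ℤ) ^ 12 := by ring
  omega

/-- few last coefficients -/
theorem card_last (a b c : ℤ) (t N : ℕ) (ht : 1 ≤ t) (htN : t ^ 4 ≤ N)
    (hg : Int.gcd a ((t : ℤ) ^ 8) ≤ t ^ 2) (D : Finset ℤ)
    (hD : ∀ d ∈ D, |d| ≤ (N : ℤ) ∧ (t : ℤ) ^ 16 ∣ dsc a b c d) :
    (D.card : ℝ) ≤ 18 * N / (t : ℝ) ^ 4 := by
  classical
  have ht0 : (0 : ℤ) < (t : ℤ) ^ 4 := by positivity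
  set K : ℤ := 3 * N / (t : ℤ) ^ 4 with hK
  have hmaps : ∀ d ∈ D, 3 * d / (t : ℤ) ^ 4 ∈ Icc (-(K + 1)) K := by
    intro d hd
    have h1 := abs_le.1 (hD d hd).1
    rw [mem_Icc]
    constructor
    · have e1 : -(3 * (N : ℤ)) / (t : ℤ) ^ 4 ≤ 3 * d / (t : ℤ) ^ 4 :=
        Int.ediv_le_ediv ht0 (by omega)
      have e2 : -(K + 1) ≤ -(3 * (N : ℤ)) / (t : ℤ) ^ 4 := by
        rw [Int.le_ediv_iff_mul_le ht0]
        have := Int.lt_ediv_add_one_mul_self (3 * (N : ℤ)) ht0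
        rw [← hK] at this
        nlinarith
      omega
    · exact Int.ediv_le_ediv ht0 (by omega)
  have hfib : ∀ y ∈ Icc (-(K + 1)) K, (D.filter fun d => 3 * d / (t : ℤ) ^ 4 = y).card ≤ 2 := by
    intro y _
    by_contra hcon
    push Not at hcon
    obtain ⟨p, q, r, hp, hq, hr, hpq, hpr, hqr⟩ := Finset.two_lt_card_iff.1 hcon
    rw [mem_filter] at hp hq hr
    have key : ∀ u v : ℤ, 3 * u / (t : ℤ) ^ 4 = y → 3 * v / (t : ℤ) ^ 4 = y → 3 * |u - v| < (t : ℤ) ^ 4 := by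
      intro u v hu hv
      have e1 := Int.emod_add_mul_ediv (3 * u) ((t : ℤ) ^ 4)
      have e2 := Int.emod_add_mul_ediv (3 * v) ((t : ℤ) ^ 4)
      have f1 := Int.emod_nonneg (3 * u) ht0.ne'
      have f2 := Int.emod_lt_of_pos (3 * u) ht0
      have g1 := Int.emod_nonneg (3 * v) ht0.ne'
      have g2 := Int.emod_lt_of_pos (3 * v) ht0
      rw [hu] at e1
      rw [hv] at e2
      rcases abs_cases (u - v) with ⟨h, _⟩ | ⟨h, _⟩ <;> rw [h] <;> linarith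
    exact not_close a b c p q r t ht hg (hD p hp.1).2 (hD q hq.1).2 (hD r hr.1).2 hpq hpr hqr
      (key p q hp.2 hq.2) (key p r hp.2 hr.2) (key q r hq.2 hr.2)
  have h1 := Finset.card_le_mul_card_image_of_maps_to hmaps 2 hfib
  rw [Int.card_Icc] at h1
  have htN' : (t : ℤ) ^ 4 ≤ N := by exact_mod_cast htN
  have hK3 : 3 ≤ K := by
    rw [hK, Int.le_ediv_iff_mul_le ht0]
    linarith
  have h2 : (D.card : ℤ) ≤ 2 * (2 * K + 2) := by omega
  have h3 : (D.card : ℤ) ≤ 6 * K := by omega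
  have h4 : (K : ℝ) ≤ 3 * N / (t : ℝ) ^ 4 := by
    rw [le_div_iff₀ (by positivity)]
    have := Int.ediv_mul_le (3 * (N : ℤ)) ht0.ne'
    rw [← hK] at this
    exact_mod_cast this
  have h5 : (D.card : ℝ) ≤ 6 * (K : ℝ) := by exact_mod_cast h3
  calc (D.card : ℝ) ≤ 6 * (K : ℝ) := h5
    _ ≤ 6 * (3 * N / (t : ℝ) ^ 4) := by linarith
    _ = _ := by ring

/-- nonzero multiples of `h` -/
theorem card_mult (h N : ℕ) (hh : 0 < h) :
    ((((Icc (-(N : ℤ)) N).filter fun a => a ≠ 0 ∧ (h : ℤ) ∣ a).card : ℕ) : ℝ) ≤ 2 * (N / h) := by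
  classical
  have hsub : ((Icc (-(N : ℤ)) N).filter fun a => a ≠ 0 ∧ (h : ℤ) ∣ a) ⊆
      ((Icc (-((N / h : ℕ) : ℤ)) ((N / h : ℕ) : ℤ)).erase 0).image fun k => (h : ℤ) * k := by
    intro a ha
    rw [mem_filter, mem_Icc] at ha
    obtain ⟨⟨h1, h2⟩, h3, k, rfl⟩ := ha
    rw [mem_image]
    refine ⟨k, ?_, rfl⟩
    have hhz : (0 : ℤ) < h := by exact_mod_cast hh
    rw [mem_erase, mem_Icc]
    refine ⟨by rintro rfl; simp at h3, ?_, ?_⟩
    · have : -k ≤ ((N / h : ℕ) : ℤ) := by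
        push_cast
        rw [Int.le_ediv_iff_mul_le hhz]
        linarith
      linarith
    · push_cast
      rw [Int.le_ediv_iff_mul_le hhz]
      linarith
  have h1 := (Finset.card_le_card hsub).trans Finset.card_image_le
  have hnn : (0 : ℤ) ≤ ((N / h : ℕ) : ℤ) := Int.natCast_nonneg _
  rw [Finset.card_erase_of_mem (by rw [mem_Icc]; exact ⟨by linarith, hnn⟩), Int.card_Icc] at h1
  have h2 : (((N / h : ℕ) : ℤ) + 1 - -((N / h : ℕ) : ℤ)).toNat - 1 = 2 * (N / h) := by omega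
  rw [h2] at h1
  have h3 : (((N / h : ℕ) : ℕ) : ℝ) ≤ (N : ℝ) / h := Nat.cast_div_le
  have h4 : ((((Icc (-(N : ℤ)) N).filter fun a => a ≠ 0 ∧ (h : ℤ) ∣ a).card : ℕ) : ℝ) ≤ 2 * ((N / h : ℕ) : ℝ) := by
    exact_mod_cast h1
  linarith


theorem sum_tail (Q R : ℕ) (hQ : 1 ≤ Q) (hQR : Q ≤ R) :
    ∑ t ∈ Ico Q R, √(t : ℝ) / (t : ℝ) ^ 2 ≤ 4 / √(Q : ℝ) - 4 / √(R : ℝ) := by
  induction R, hQR using Nat.le_induction with
  | base => simp
  | succ n hn ih =>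
    rw [Finset.sum_Ico_succ_top hn]
    have hn1 : (1 : ℝ) ≤ n := by exact_mod_cast hQ.trans hn
    have key : √(n : ℝ) / (n : ℝ) ^ 2 ≤ 4 / √(n : ℝ) - 4 / √((n + 1 : ℕ) : ℝ) := by
      push_cast
      set x := √(n : ℝ) with hx
      set y := √((n : ℝ) + 1) with hy
      have hx2 : x ^ 2 = n := Real.sq_sqrt (by linarith)
      have hy2 : y ^ 2 = n + 1 := Real.sq_sqrt (by linarith)
      have hx1 : 1 ≤ x := by rw [hx]; exact Real.one_le_sqrt.2 hn1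
      have hy0 : 0 < y := Real.sqrt_pos.2 (by linarith)
      have hxy : x ≤ y := Real.sqrt_le_sqrt (by linarith)
      have hyx : y ≤ 3 / 2 * x := by
        refine le_of_sq_le_sq ?_ (by positivity)
        rw [hy2, mul_pow, hx2]
        linarith
      have e1 : (y - x) * (y + x) = 1 := by ring_nf; rw [hx2, hy2]; ring
      rw [← hx2, div_sub_div _ _ (by positivity) (by positivity), div_le_div_iff₀ (by positivity) (by positivity)]
      have e2 : x * (x * y) ≤ 4 * (y - x) * x ^ 4 := by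
        have e3 : x * (x * y) * (y + x) ≤ 4 * (y - x) * x ^ 4 * (y + x) := by
          have : 4 * (y - x) * x ^ 4 * (y + x) = 4 * x ^ 4 := by
            calc 4 * (y - x) * x ^ 4 * (y + x) = 4 * x ^ 4 * ((y - x) * (y + x)) := by ring
              _ = _ := by rw [e1, mul_one]
          rw [this]
          have e4 : y * (y + x) ≤ 4 * x ^ 2 := by nlinarith
          have : x * (x * y) * (y + x) = x ^ 2 * (y * (y + x)) := by ring
          rw [this]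
          calc x ^ 2 * (y * (y + x)) ≤ x ^ 2 * (4 * x ^ 2) := mul_le_mul_of_nonneg_left e4 (sq_nonneg _)
            _ = 4 * x ^ 4 := by ring
        exact le_of_mul_le_mul_right e3 (by positivity)
      calc x * (x * y) ≤ 4 * (y - x) * x ^ 4 := e2
        _ = (4 * y - x * 4) * (x ^ 2) ^ 2 := by ring
    linarith

theorem card_mult_box (h N : ℕ) (hh : 0 < h) (hN : 1 ≤ N) (E : Finset Q4)
    (hE : ∀ v ∈ E, Box N v ∧ v.1 ≠ 0 ∧ (h : ℤ) ∣ v.1) : (E.card : ℝ) ≤ 54 * (N : ℝ) ^ 4 / h := by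
  classical
  set S := (Icc (-(N : ℤ)) N).filter fun a => a ≠ 0 ∧ (h : ℤ) ∣ a with hS
  have hsub : E ⊆ S ×ˢ (Icc (-(N : ℤ)) N ×ˢ (Icc (-(N : ℤ)) N ×ˢ Icc (-(N : ℤ)) N)) := by
    intro v hv
    obtain ⟨⟨h1, h2, h3, h4⟩, h5, h6⟩ := hE v hv
    rw [abs_le] at h1 h2 h3 h4
    rw [mem_product, mem_product, mem_product, hS, mem_filter, mem_Icc, mem_Icc, mem_Icc, mem_Icc]
    exact ⟨⟨h1, h5, h6⟩, h2, h3, h4⟩
  have h1 := Finset.card_le_card hsub
  rw [Finset.card_product, Finset.card_product, Finset.card_product, Int.card_Icc] at h1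
  have h2 : ((N : ℤ) + 1 - -(N : ℤ)).toNat = 2 * N + 1 := by omega
  rw [h2] at h1
  have h3 : (E.card : ℝ) ≤ (S.card : ℝ) * ((2 * N + 1) * ((2 * N + 1) * (2 * N + 1))) := by exact_mod_cast h1
  have h4 := card_mult h N hh
  rw [← hS] at h4
  have hN1 : (1 : ℝ) ≤ N := by exact_mod_cast hN
  have h5 : (2 * (N : ℝ) + 1) * ((2 * N + 1) * (2 * N + 1)) ≤ 27 * (N : ℝ) ^ 3 := by
    have e1 : 2 * (N : ℝ) + 1 ≤ 3 * N := by linarith
    calc (2 * (N : ℝ) + 1) * ((2 * N + 1) * (2 * N + 1)) ≤ (3 * N) * ((3 * N) * (3 * N)) := by gcongr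
      _ = _ := by ring
  calc (E.card : ℝ) ≤ (S.card : ℝ) * ((2 * N + 1) * ((2 * N + 1) * (2 * N + 1))) := h3
    _ ≤ (2 * ((N : ℝ) / h)) * (27 * (N : ℝ) ^ 3) := mul_le_mul h4 h5 (by positivity) (by positivity)
    _ = _ := by ring

theorem card_B (N t : ℕ) (hN : 1 ≤ N) (ht : 1 ≤ t) (htN : t ^ 4 ≤ N) (E : Finset Q4)
    (hE : ∀ v ∈ E, Box N v ∧ Int.gcd v.1 ((t : ℤ) ^ 8) ≤ t ^ 2 ∧ (t : ℤ) ^ 16 ∣ dQ v) :
    (E.card : ℝ) ≤ 486 * (N : ℝ) ^ 4 / (t : ℝ) ^ 4 := by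
  classical
  have hN1 : (1 : ℝ) ≤ N := by exact_mod_cast hN
  set T : Finset (ℤ × ℤ × ℤ) := Icc (-(N : ℤ)) N ×ˢ (Icc (-(N : ℤ)) N ×ˢ Icc (-(N : ℤ)) N) with hT
  have hmaps : ∀ v ∈ E, ((v.1, v.2.1, v.2.2.1) : ℤ × ℤ × ℤ) ∈ T := by
    intro v hv
    obtain ⟨⟨h1, h2, h3, h4⟩, h5, h6⟩ := hE v hv
    rw [abs_le] at h1 h2 h3
    rw [hT, mem_product, mem_product, mem_Icc, mem_Icc, mem_Icc]
    exact ⟨h1, h2, h3⟩
  have hfib : ∀ u ∈ T, ((E.filter fun v => ((v.1, v.2.1, v.2.2.1) : ℤ × ℤ × ℤ) = u).card : ℝ) ≤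
      18 * N / (t : ℝ) ^ 4 := by
    rintro ⟨a, b, c⟩ -
    rcases (E.filter fun v => ((v.1, v.2.1, v.2.2.1) : ℤ × ℤ × ℤ) = (a, b, c)).eq_empty_or_nonempty with he | ⟨w, hw⟩
    · rw [he]; simp; positivity
    have hinj : ∀ v ∈ E.filter fun v => ((v.1, v.2.1, v.2.2.1) : ℤ × ℤ × ℤ) = (a, b, c),
        ∀ w ∈ E.filter fun v => ((v.1, v.2.1, v.2.2.1) : ℤ × ℤ × ℤ) = (a, b, c),
        v.2.2.2 = w.2.2.2 → v = w := by
      rintro ⟨v1, v2, v3, v4⟩ hv ⟨w1, w2, w3, w4⟩ hw h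
      simp only [mem_filter, Prod.mk.injEq] at hv hw h ⊢
      obtain ⟨-, rfl, rfl, rfl⟩ := hv
      obtain ⟨-, rfl, rfl, rfl⟩ := hw
      exact ⟨rfl, rfl, rfl, h⟩
    have hg : Int.gcd a ((t : ℤ) ^ 8) ≤ t ^ 2 := by
      rw [mem_filter, Prod.mk.injEq] at hw
      rw [← hw.2.1]
      exact (hE w hw.1).2.1
    rw [← Finset.card_image_of_injOn (f := fun v : Q4 => v.2.2.2) (fun v hv w hw h =>
      hinj v (by simpa using hv) w (by simpa using hw) h)]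
    refine card_last a b c t N ht htN hg _ (by
        intro d hd
        rw [mem_image] at hd
        obtain ⟨⟨v1, v2, v3, v4⟩, hv, rfl⟩ := hd
        simp only [mem_filter, Prod.mk.injEq] at hv
        obtain ⟨hv, rfl, rfl, rfl⟩ := hv
        exact ⟨(hE _ hv).1.2.2.2, (hE _ hv).2.2⟩)
  rw [Finset.card_eq_sum_card_fiberwise (f := fun v : Q4 => ((v.1, v.2.1, v.2.2.1) : ℤ × ℤ × ℤ)) (t := T)
    (fun v hv => hmaps v hv)]
  push_cast
  refine (Finset.sum_le_sum hfib).trans ?_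
  rw [Finset.sum_const, hT, Finset.card_product, Finset.card_product, Int.card_Icc, nsmul_eq_mul]
  have : ((N : ℤ) + 1 - -(N : ℤ)).toNat = 2 * N + 1 := by omega
  rw [this]
  push_cast
  have h5 : (2 * (N : ℝ) + 1) * ((2 * N + 1) * (2 * N + 1)) ≤ 27 * (N : ℝ) ^ 3 := by
    have e1 : 2 * (N : ℝ) + 1 ≤ 3 * N := by linarith
    calc (2 * (N : ℝ) + 1) * ((2 * N + 1) * (2 * N + 1)) ≤ (3 * N) * ((3 * N) * (3 * N)) := by gcongr
      _ = _ := by ring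
  calc (2 * (N : ℝ) + 1) * ((2 * N + 1) * (2 * N + 1)) * (18 * N / (t : ℝ) ^ 4)
      ≤ (27 * (N : ℝ) ^ 3) * (18 * N / (t : ℝ) ^ 4) := mul_le_mul_of_nonneg_right h5 (by positivity)
    _ = _ := by ring

theorem t_POW : S_POW := by
  classical
  obtain ⟨C₀, hC₀, hdiv⟩ := Pool.Agent.H510R2.divisor_bound (1 / 16) (by norm_num)
  refine ⟨2160 * C₀, by positivity, fun N Q R E hN hQ hR hE => ?_⟩
  have hN1 : (1 : ℝ) ≤ N := by exact_mod_cast hN
  -- the bound for one `t`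
  have hone : ∀ t ∈ Ico Q (R + 1), ((E.filter fun v => (t : ℤ) ^ 16 ∣ dQ v).card : ℝ) ≤
      540 * C₀ * (N : ℝ) ^ 4 * (√(t : ℝ) / (t : ℝ) ^ 2) := by
    intro t ht
    rw [mem_Ico] at ht
    have ht1 : 1 ≤ t := hQ.trans ht.1
    have ht1' : (1 : ℝ) ≤ t := by exact_mod_cast ht1
    have htN : t ^ 4 ≤ N := by
      calc t ^ 4 ≤ t ^ 16 := Nat.pow_le_pow_right ht1 (by norm_num)
        _ ≤ R ^ 16 := Nat.pow_le_pow_left (by omega) 16
        _ ≤ N := hR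
    set Et := E.filter fun v => (t : ℤ) ^ 16 ∣ dQ v with hEt
    set B := Et.filter fun v => Int.gcd v.1 ((t : ℤ) ^ 8) ≤ t ^ 2 with hB
    set A := Et.filter fun v => ¬ Int.gcd v.1 ((t : ℤ) ^ 8) ≤ t ^ 2 with hA
    have hcard : (Et.card : ℝ) = B.card + A.card := by
      rw [← Finset.card_filter_add_card_filter_not (s := Et) (fun v => Int.gcd v.1 ((t : ℤ) ^ 8) ≤ t ^ 2)]
      push_cast
      rfl
    have hBc : (B.card : ℝ) ≤ 486 * (N : ℝ) ^ 4 / (t : ℝ) ^ 4 := by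
      refine card_B N t hN ht1 htN B ?_
      intro v hv
      rw [hB, mem_filter, hEt, mem_filter] at hv
      exact ⟨(hE v hv.1.1).1, hv.2, hv.1.2⟩
    have hAc : (A.card : ℝ) ≤ ((t ^ 8).divisors.card : ℝ) * (54 * (N : ℝ) ^ 4 / (t : ℝ) ^ 2) := by
      have hmaps : ∀ v ∈ A, Int.gcd v.1 ((t : ℤ) ^ 8) ∈ (t ^ 8).divisors := by
        intro v _
        rw [Nat.mem_divisors]
        refine ⟨?_, by positivity⟩
        have : ((Int.gcd v.1 ((t : ℤ) ^ 8) : ℕ) : ℤ) ∣ ((t ^ 8 : ℕ) : ℤ) := by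
          push_cast
          exact Int.gcd_dvd_right _ _
        exact_mod_cast this
      rw [Finset.card_eq_sum_card_fiberwise hmaps]
      push_cast
      have hb : ∀ h ∈ (t ^ 8).divisors, ((A.filter fun v => Int.gcd v.1 ((t : ℤ) ^ 8) = h).card : ℝ) ≤
          54 * (N : ℝ) ^ 4 / (t : ℝ) ^ 2 := by
        intro h hh
        have hh0 : 0 < h := Nat.pos_of_mem_divisors hh
        rcases (A.filter fun v => Int.gcd v.1 ((t : ℤ) ^ 8) = h).eq_empty_or_nonempty with he | ⟨w, hw⟩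
        · rw [he]; simp; positivity
        have hht : t ^ 2 < h := by
          rw [mem_filter, hA, mem_filter] at hw
          rw [← hw.2]
          exact not_le.1 hw.1.2
        refine (card_mult_box h N hh0 hN _ ?_).trans ?_
        · intro v hv
          rw [mem_filter, hA, mem_filter, hEt, mem_filter] at hv
          obtain ⟨⟨⟨hvE, -⟩, -⟩, hg⟩ := hv
          refine ⟨(hE v hvE).1, (hE v hvE).2.1, ?_⟩
          rw [← hg]
          exact Int.gcd_dvd_left _ _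
        · have : (t : ℝ) ^ 2 ≤ h := by exact_mod_cast hht.le
          gcongr
      refine (Finset.sum_le_sum hb).trans ?_
      rw [Finset.sum_const, nsmul_eq_mul]
    have hd1 : (1 : ℝ) ≤ ((t ^ 8).divisors.card : ℝ) := by
      have : 0 < (t ^ 8).divisors.card := Finset.card_pos.2 ⟨1, by rw [Nat.mem_divisors]; exact ⟨one_dvd _, by positivity⟩⟩
      exact_mod_cast this
    have hd2 : ((t ^ 8).divisors.card : ℝ) ≤ C₀ * √(t : ℝ) := by
      have h1 := hdiv (t ^ 8) (Nat.one_le_pow _ _ ht1)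
      have h2 : (((t ^ 8 : ℕ) : ℝ)) ^ (1 / 16 : ℝ) = √(t : ℝ) := by
        push_cast
        rw [← Real.rpow_natCast, ← Real.rpow_mul (by positivity), Real.sqrt_eq_rpow]
        norm_num
      rwa [h2] at h1
    have h24 : 486 * (N : ℝ) ^ 4 / (t : ℝ) ^ 4 ≤ 486 * (N : ℝ) ^ 4 / (t : ℝ) ^ 2 := by
      have : (t : ℝ) ^ 2 ≤ (t : ℝ) ^ 4 := pow_le_pow_right₀ ht1' (by norm_num)
      gcongr
    have hpos : 0 ≤ (N : ℝ) ^ 4 / (t : ℝ) ^ 2 := by positivity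
    rw [hcard]
    calc (B.card : ℝ) + A.card ≤ 486 * (N : ℝ) ^ 4 / (t : ℝ) ^ 2 +
          ((t ^ 8).divisors.card : ℝ) * (54 * (N : ℝ) ^ 4 / (t : ℝ) ^ 2) := add_le_add (hBc.trans h24) hAc
      _ = (486 + 54 * ((t ^ 8).divisors.card : ℝ)) * ((N : ℝ) ^ 4 / (t : ℝ) ^ 2) := by ring
      _ ≤ (540 * ((t ^ 8).divisors.card : ℝ)) * ((N : ℝ) ^ 4 / (t : ℝ) ^ 2) := by
          refine mul_le_mul_of_nonneg_right ?_ hpos
          linarith
      _ ≤ (540 * (C₀ * √(t : ℝ))) * ((N : ℝ) ^ 4 / (t : ℝ) ^ 2) := by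
          refine mul_le_mul_of_nonneg_right ?_ hpos
          linarith
      _ = _ := by ring
  -- the union
  have hsub : E ⊆ (Ico Q (R + 1)).biUnion fun t => E.filter fun v => (t : ℤ) ^ 16 ∣ dQ v := by
    intro v hv
    obtain ⟨h1, h2, t, h3, h4, h5⟩ := hE v hv
    rw [mem_biUnion]
    exact ⟨t, by rw [mem_Ico]; omega, by rw [mem_filter]; exact ⟨hv, h5⟩⟩
  have h1 : (E.card : ℝ) ≤ ∑ t ∈ Ico Q (R + 1), ((E.filter fun v => (t : ℤ) ^ 16 ∣ dQ v).card : ℝ) := by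
    have := (Finset.card_le_card hsub).trans Finset.card_biUnion_le
    exact_mod_cast this
  have h2 := h1.trans (Finset.sum_le_sum hone)
  rw [← Finset.mul_sum] at h2
  rcases le_or_gt Q (R + 1) with hQR | hQR
  · have h3 := sum_tail Q (R + 1) hQ hQR
    have h4 : ∑ t ∈ Ico Q (R + 1), √(t : ℝ) / (t : ℝ) ^ 2 ≤ 4 / √(Q : ℝ) := by
      have : 0 ≤ 4 / √((R + 1 : ℕ) : ℝ) := by positivity
      linarith
    calc (E.card : ℝ) ≤ 540 * C₀ * (N : ℝ) ^ 4 * ∑ t ∈ Ico Q (R + 1), √(t : ℝ) / (t : ℝ) ^ 2 := h2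
      _ ≤ 540 * C₀ * (N : ℝ) ^ 4 * (4 / √(Q : ℝ)) := mul_le_mul_of_nonneg_left h4 (by positivity)
      _ = _ := by ring
  · rw [Finset.Ico_eq_empty (by omega)] at h2
    simp only [Finset.sum_empty, mul_zero] at h2
    exact h2.trans (by positivity)

end Pool.Agent.K1H58.CPP
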