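import Pool.Agent.K1H46.CP.Stm

/-! # CP-SML: cubic forms with small discriminant  (helper58) -/

set_option autoImplicit false

namespace Pool.Agent.K1H58.CP

open Pool.Agent.K1H46.CP
open Finset

/-- interpolation of the discriminant as a quadratic polynomial in the last coefficient -/
theorem interp (a b c x y z : ℤ) :
    dsc a b c x * (y - z) - dsc a b c y * (x - z) + dsc a b c z * (x - y) =
      -(27 * a ^ 2) * ((x - y) * (x - z) * (y - z)) := by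
  unfold dsc; ring

/-- few last coefficients -/
theorem card_last (a b c : ℤ) (ha : a ≠ 0) (Z : ℝ) (hZ : 0 ≤ Z) (D : Finset ℤ)
    (hD : ∀ d ∈ D, |((dsc a b c d : ℤ) : ℝ)| ≤ Z) :
    (D.card : ℝ) ≤ 2 * (√Z / |(a : ℝ)|) + 2 := by
  have ha' : 0 < |(a : ℝ)| := abs_pos.2 (by exact_mod_cast ha)
  set L : ℝ := √Z / |(a : ℝ)| with hL
  have hL0 : 0 ≤ L := by positivity
  rcases D.eq_empty_or_nonempty with rfl | hne
  · simp; positivity
  set u := D.min' hne with hu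
  set w := D.max' hne with hw
  have huD : u ∈ D := D.min'_mem hne
  have hwD : w ∈ D := D.max'_mem hne
  have hsub : D ⊆ Icc u (u + ⌊L⌋) ∪ Icc (w - ⌊L⌋) w := by
    intro d hd
    have h1 : u ≤ d := D.min'_le d hd
    have h2 : d ≤ w := D.le_max' d hd
    rw [mem_union, mem_Icc, mem_Icc]
    by_contra hcon
    push Not at hcon
    obtain ⟨c1, c2⟩ := hcon
    have c1 := c1 h1
    have c2 : ¬ (w - ⌊L⌋ ≤ d) := fun h => by
      have := c2 h
      omega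
    have e1 : L < (d - u : ℤ) := Int.floor_lt.1 (by omega)
    have e2 : L < (w - d : ℤ) := Int.floor_lt.1 (by omega)
    have hI := interp a b c u d w
    have hI' : ((dsc a b c u : ℤ) : ℝ) * (d - w) - ((dsc a b c d : ℤ) : ℝ) * (u - w) +
        ((dsc a b c w : ℤ) : ℝ) * (u - d) = -(27 * (a : ℝ) ^ 2) * ((u - d) * (u - w) * (d - w)) := by
      exact_mod_cast hI
    have b1 := abs_le.1 (hD u huD)
    have b2 := abs_le.1 (hD d hd)
    have b3 := abs_le.1 (hD w hwD)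
    push_cast at e1 e2
    set p : ℝ := (d : ℝ) - u with hp
    set q : ℝ := (w : ℝ) - d with hq
    have hp0 : 0 < p := lt_of_le_of_lt hL0 e1
    have hq0 : 0 < q := lt_of_le_of_lt hL0 e2
    have f1 : ((dsc a b c u : ℤ) : ℝ) * (-q) + ((dsc a b c d : ℤ) : ℝ) * (p + q) +
        ((dsc a b c w : ℤ) : ℝ) * (-p) = -(27 * (a : ℝ) ^ 2) * (p * (p + q) * (-q) * (-1) * (-1) ) := by
      have : -(27 * (a : ℝ) ^ 2) * (((u : ℝ) - d) * (u - w) * (d - w)) =
        -(27 * (a : ℝ) ^ 2) * (p * (p + q) * (-q) * (-1) * (-1)) := by rw [hp, hq]; ring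
      rw [← this, ← hI', hp, hq]; ring
    have f2 : 27 * (a : ℝ) ^ 2 * (p * q * (p + q)) ≤ 2 * Z * (p + q) := by
      nlinarith [mul_nonneg (sub_nonneg.2 b1.2) hq0.le, mul_nonneg (sub_nonneg.2 b2.2) hq0.le,
        mul_nonneg (sub_nonneg.2 b3.2) hq0.le, mul_nonneg (sub_nonneg.2 b1.2) hp0.le,
        mul_nonneg (sub_nonneg.2 b2.2) hp0.le, mul_nonneg (sub_nonneg.2 b3.2) hp0.le,
        mul_nonneg (sub_nonneg.2 b1.1) hq0.le, mul_nonneg (sub_nonneg.2 b2.1) hq0.le,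
        mul_nonneg (sub_nonneg.2 b3.1) hq0.le, mul_nonneg (sub_nonneg.2 b1.1) hp0.le,
        mul_nonneg (sub_nonneg.2 b2.1) hp0.le, mul_nonneg (sub_nonneg.2 b3.1) hp0.le]
    have f3 : 27 * (a : ℝ) ^ 2 * (p * q) ≤ 2 * Z := by
      have hpq : 0 < p + q := by linarith
      refine le_of_mul_le_mul_right ?_ hpq
      linarith
    have f4 : L * L ≤ p * q := mul_le_mul e1.le e2.le hL0 hp0.le
    have f5 : (a : ℝ) ^ 2 * (L * L) = Z := by
      rw [hL, div_mul_div_comm, Real.mul_self_sqrt hZ, abs_mul_abs_self]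
      field_simp
    have f6 : L * L < p * q := by
      have := mul_lt_mul'' e1 e2 hL0 hL0
      exact this
    have ha2 : 0 < (a : ℝ) ^ 2 := by
      rw [← sq_abs]; positivity
    have f7 : Z < (a : ℝ) ^ 2 * (p * q) := by
      rw [← f5]; exact mul_lt_mul_of_pos_left f6 ha2
    linarith
  have hcard := Finset.card_le_card hsub
  have h3 := hcard.trans (Finset.card_union_le _ _)
  rw [Int.card_Icc, Int.card_Icc] at h3
  have hf0 : 0 ≤ ⌊L⌋ := Int.floor_nonneg.2 hL0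
  have h4 : (D.card : ℤ) ≤ 2 * ⌊L⌋ + 2 := by omega
  have h5 : (D.card : ℝ) ≤ 2 * (⌊L⌋ : ℝ) + 2 := by exact_mod_cast h4
  have h6 := Int.floor_le L
  linarith

theorem sum_inv_abs (N : ℕ) (hN : 1 ≤ N) :
    ∑ a ∈ (Icc (-(N : ℤ)) N).erase 0, 1 / |(a : ℝ)| ≤ 2 * (1 + Real.log N) := by
  have h1 : ∑ a ∈ (Icc (-(N : ℤ)) N).erase 0, 1 / |(a : ℝ)| =
      ∑ a ∈ Icc 1 N, 1 / (a : ℝ) + ∑ a ∈ Icc 1 N, 1 / (a : ℝ) := by
    have e : (Icc (-(N : ℤ)) N).erase 0 =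
        (Icc 1 N).image (fun n : ℕ => (n : ℤ)) ∪ (Icc 1 N).image (fun n : ℕ => -(n : ℤ)) := by
      ext x
      simp only [mem_erase, mem_Icc, mem_union, mem_image]
      constructor
      · rintro ⟨h0, h1, h2⟩
        rcases lt_or_gt_of_ne h0 with h | h
        · exact Or.inr ⟨x.natAbs, by omega, by omega⟩
        · exact Or.inl ⟨x.natAbs, by omega, by omega⟩
      · rintro (⟨n, hn, rfl⟩ | ⟨n, hn, rfl⟩) <;> omega
    rw [e, Finset.sum_union]
    · rw [Finset.sum_image (fun x _ y _ h => by exact_mod_cast h),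
        Finset.sum_image (fun x _ y _ h => by simpa using h)]
      congr 1 <;> exact Finset.sum_congr rfl fun x _ => by simp
    · rw [Finset.disjoint_left]
      intro x hx hy
      simp only [mem_image, mem_Icc] at hx hy
      obtain ⟨n, hn, rfl⟩ := hx
      obtain ⟨m, hm, h⟩ := hy
      omega
  rw [h1]
  have h2 : ∑ a ∈ Icc 1 N, 1 / (a : ℝ) ≤ 1 + Real.log N := by
    have := harmonic_le_one_add_log N
    rw [harmonic_eq_sum_Icc] at this
    push_cast at this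
    simpa [one_div] using this
  linarith

theorem t_SML : S_SML := by
  classical
  refine ⟨36, by norm_num, fun N Z E hN hZ hE => ?_⟩
  have hN1 : (1 : ℝ) ≤ N := by exact_mod_cast hN
  set T : Finset (ℤ × ℤ × ℤ) :=
    (Icc (-(N : ℤ)) N).erase 0 ×ˢ (Icc (-(N : ℤ)) N ×ˢ Icc (-(N : ℤ)) N) with hT
  have hmaps : ∀ v ∈ E, ((v.1, v.2.1, v.2.2.1) : ℤ × ℤ × ℤ) ∈ T := by
    intro v hv
    obtain ⟨⟨h1, h2, h3, h4⟩, h5, h6⟩ := hE v hv
    rw [abs_le] at h1 h2 h3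
    rw [hT, mem_product, mem_product, mem_erase, mem_Icc, mem_Icc, mem_Icc]
    exact ⟨⟨h5, h1⟩, h2, h3⟩
  have hfib : ∀ t ∈ T, ((E.filter fun v => ((v.1, v.2.1, v.2.2.1) : ℤ × ℤ × ℤ) = t).card : ℝ) ≤
      2 * √Z * (1 / |(t.1 : ℝ)|) + 2 := by
    rintro ⟨a, b, c⟩ ht
    rw [hT, mem_product, mem_product, mem_erase] at ht
    have ha : a ≠ 0 := ht.1.1
    have hinj : ∀ v ∈ E.filter fun v => ((v.1, v.2.1, v.2.2.1) : ℤ × ℤ × ℤ) = (a, b, c),
        ∀ w ∈ E.filter fun v => ((v.1, v.2.1, v.2.2.1) : ℤ × ℤ × ℤ) = (a, b, c),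
        v.2.2.2 = w.2.2.2 → v = w := by
      rintro ⟨v1, v2, v3, v4⟩ hv ⟨w1, w2, w3, w4⟩ hw h
      simp only [mem_filter, Prod.mk.injEq] at hv hw h ⊢
      obtain ⟨-, rfl, rfl, rfl⟩ := hv
      obtain ⟨-, rfl, rfl, rfl⟩ := hw
      exact ⟨rfl, rfl, rfl, h⟩
    rw [← Finset.card_image_of_injOn (f := fun v : Q4 => v.2.2.2) (fun v hv w hw h =>
      hinj v (by simpa using hv) w (by simpa using hw) h)]
    have := card_last a b c ha Z (by linarith)
      ((E.filter fun v => ((v.1, v.2.1, v.2.2.1) : ℤ × ℤ × ℤ) = (a, b, c)).image fun v : Q4 => v.2.2.2) (by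
        intro d hd
        rw [mem_image] at hd
        obtain ⟨⟨v1, v2, v3, v4⟩, hv, rfl⟩ := hd
        simp only [mem_filter, Prod.mk.injEq] at hv
        obtain ⟨hv, rfl, rfl, rfl⟩ := hv
        exact (hE _ hv).2.2)
    refine this.trans (le_of_eq ?_)
    simp only
    ring
  rw [Finset.card_eq_sum_card_fiberwise (f := fun v : Q4 => ((v.1, v.2.1, v.2.2.1) : ℤ × ℤ × ℤ)) (t := T)
    (fun v hv => hmaps v hv)]
  push_cast
  refine (Finset.sum_le_sum hfib).trans ?_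
  rw [hT, Finset.sum_product]
  have e1 : ∀ a ∈ (Icc (-(N : ℤ)) N).erase 0,
      ∑ y ∈ Icc (-(N : ℤ)) N ×ˢ Icc (-(N : ℤ)) N, (2 * √Z * (1 / |((a, y).1 : ℝ)|) + 2) =
        (2 * N + 1) ^ 2 * (2 * √Z * (1 / |(a : ℝ)|) + 2) := by
    intro a _
    change ∑ _y ∈ Icc (-(N : ℤ)) N ×ˢ Icc (-(N : ℤ)) N, (2 * √Z * (1 / |(a : ℝ)|) + 2) = _
    rw [Finset.sum_const, Finset.card_product, Int.card_Icc, nsmul_eq_mul]
    congr 1
    have : ((N : ℤ) + 1 - -(N : ℤ)).toNat = 2 * N + 1 := by omega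
    rw [this]
    push_cast
    ring
  rw [Finset.sum_congr rfl e1, ← Finset.mul_sum, Finset.sum_add_distrib, ← Finset.mul_sum,
    Finset.sum_const, nsmul_eq_mul]
  have e2 : (((Icc (-(N : ℤ)) N).erase 0).card : ℝ) ≤ 2 * N := by
    rw [Finset.card_erase_of_mem (by rw [mem_Icc]; omega), Int.card_Icc]
    have : ((N : ℤ) + 1 - -(N : ℤ)).toNat - 1 = 2 * N := by omega
    rw [this]
    push_cast
    exact le_rfl
  have e3 := sum_inv_abs N hN
  have hs : 0 ≤ √Z := Real.sqrt_nonneg _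
  have hlog : 0 ≤ Real.log N := Real.log_nonneg hN1
  have e4 : (2 * (N : ℝ) + 1) ^ 2 ≤ 9 * (N : ℝ) ^ 2 := by nlinarith
  have e5 : 2 * √Z * ∑ a ∈ (Icc (-(N : ℤ)) N).erase 0, 1 / |(a : ℝ)| +
      (((Icc (-(N : ℤ)) N).erase 0).card : ℝ) * 2 ≤ 4 * √Z * (1 + Real.log N) + 4 * N := by
    have := mul_le_mul_of_nonneg_left e3 (show 0 ≤ 2 * √Z by positivity)
    linarith
  calc (2 * (N : ℝ) + 1) ^ 2 * (2 * √Z * ∑ a ∈ (Icc (-(N : ℤ)) N).erase 0, 1 / |(a : ℝ)| +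
      (((Icc (-(N : ℤ)) N).erase 0).card : ℝ) * 2)
      ≤ 9 * (N : ℝ) ^ 2 * (4 * √Z * (1 + Real.log N) + 4 * N) :=
        mul_le_mul e4 e5 (by positivity) (by positivity)
    _ = 36 * ((1 + Real.log N) * ((N : ℝ) ^ 2 * √Z) + (N : ℝ) ^ 3) := by ring

end Pool.Agent.K1H58.CP
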