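import Mathlib

/-! The complete graph on five vertices as a topological space: the union of the ten segments which
join the five unit vectors of `ℝ⁵`. -/

set_option autoImplicit false

namespace Pool.Agent.K1H58.K5

open Set Topology Metric

/-- The point `(1 - t) e_a + t e_b`. -/
noncomputable def pt (a b : Fin 5) (t : ℝ) : Fin 5 → ℝ := (1 - t) • Pi.single a 1 + t • Pi.single b 1

lemma pt_cont (a b : Fin 5) : Continuous (pt a b) := by
  unfold pt
  fun_prop

lemma pt_zero (a b : Fin 5) : pt a b 0 = Pi.single a 1 := by simp [pt]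

lemma pt_one (a b : Fin 5) : pt a b 1 = Pi.single b 1 := by simp [pt]

lemma pt_swap (a b : Fin 5) (t : ℝ) : pt a b t = pt b a (1 - t) := by
  unfold pt
  rw [add_comm]
  congr 2
  ring

lemma pt_self (a : Fin 5) (t : ℝ) : pt a a t = Pi.single a 1 := by
  unfold pt
  rw [← add_smul]
  simp

lemma pt_left {a b : Fin 5} (h : a ≠ b) (t : ℝ) : pt a b t a = 1 - t := by
  simp [pt, h]

lemma pt_right {a b : Fin 5} (h : a ≠ b) (t : ℝ) : pt a b t b = t := by
  simp [pt, h.symm]

lemma pt_other {a b c : Fin 5} (h : c ≠ a) (h' : c ≠ b) (t : ℝ) : pt a b t c = 0 := by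
  simp [pt, h, h']

/-- The underlying set of the space. -/
def carrier : Set (Fin 5 → ℝ) := {x | ∃ a b : Fin 5, ∃ t ∈ Icc (0 : ℝ) 1, x = pt a b t}

/-- The space. -/
abbrev Sp : Type := carrier

/-- The parametrisation of the space. -/
noncomputable def par (q : (Fin 5 × Fin 5) × unitInterval) : Sp :=
  ⟨pt q.1.1 q.1.2 q.2, q.1.1, q.1.2, q.2, q.2.2, rfl⟩

lemma par_cont : Continuous par := by
  rw [continuous_prod_of_discrete_left]
  intro a
  exact ((pt_cont a.1 a.2).comp continuous_subtype_val).subtype_mk _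

lemma par_surj : Function.Surjective par := by
  rintro ⟨x, a, b, t, ht, rfl⟩
  exact ⟨((a, b), ⟨t, ht⟩), rfl⟩

instance : CompactSpace Sp := by
  have := isCompact_range par_cont
  rw [par_surj.range_eq] at this
  exact ⟨this⟩

instance : LocallyConnectedSpace Sp := by
  have : LocallyPathConnectedSpace unitInterval :=
    (convex_Icc (0 : ℝ) 1).locallyPathConnectedSpace
  exact (par_cont.isClosedMap.isQuotientMap par_cont par_surj).locallyConnectedSpace

/-- the vertices -/
noncomputable def vert (a : Fin 5) : Sp := par ((a, a), 0)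

lemma vert_val (a : Fin 5) : (vert a : Fin 5 → ℝ) = Pi.single a 1 := by
  simp [vert, par, pt_zero]

/-- the closed edges -/
def edge (a b : Fin 5) : Set Sp := (fun t : unitInterval => par ((a, b), t)) '' univ

lemma edge_conn (a b : Fin 5) : IsConnected (edge a b) := by
  have h : Continuous (fun t : unitInterval => par ((a, b), t)) :=
    par_cont.comp (by fun_prop)
  exact isConnected_univ.image _ h.continuousOn

lemma edge_compact (a b : Fin 5) : IsCompact (edge a b) := by
  have h : Continuous (fun t : unitInterval => par ((a, b), t)) :=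
    par_cont.comp (by fun_prop)
  exact isCompact_univ.image h

lemma left_mem (a b : Fin 5) : vert a ∈ edge a b :=
  ⟨0, trivial, Subtype.ext (by simp [par, vert, pt_zero])⟩

lemma right_mem (a b : Fin 5) : vert b ∈ edge a b :=
  ⟨1, trivial, Subtype.ext (by simp [par, vert, pt_one, pt_zero])⟩

instance : ConnectedSpace Sp := by
  have hstar : ∀ a, IsConnected (⋃ b, edge a b) := by
    intro a
    refine ⟨⟨vert a, mem_iUnion.2 ⟨a, left_mem a a⟩⟩, ?_⟩
    exact isPreconnected_iUnion ⟨vert a, mem_iInter.2 fun b => left_mem a b⟩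
      (fun b => (edge_conn a b).isPreconnected)
  have hall : IsConnected (⋃ a, ⋃ b, edge a b) := by
    refine ⟨⟨vert 0, mem_iUnion.2 ⟨0, mem_iUnion.2 ⟨0, left_mem 0 0⟩⟩⟩, ?_⟩
    exact isPreconnected_iUnion
      ⟨vert 0, mem_iInter.2 fun a => mem_iUnion.2 ⟨0, right_mem a 0⟩⟩
      (fun a => (hstar a).isPreconnected)
  have huniv : (⋃ a, ⋃ b, edge a b) = univ := by
    rw [eq_univ_iff_forall]
    intro x
    obtain ⟨⟨⟨a, b⟩, t⟩, rfl⟩ := par_surj x
    exact mem_iUnion.2 ⟨a, mem_iUnion.2 ⟨b, ⟨t, trivial, rfl⟩⟩⟩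
  rw [huniv] at hall
  exact connectedSpace_iff_univ.2 hall

lemma vert_ne {a b : Fin 5} (h : a ≠ b) : vert a ≠ vert b := by
  intro he
  have h1 := congrArg (fun x : Sp => (x : Fin 5 → ℝ) a) he
  simp only [vert_val, Pi.single_eq_same, Pi.single_apply, h, if_false] at h1
  exact one_ne_zero h1

instance : Nontrivial Sp := ⟨vert 0, vert 1, vert_ne (by decide)⟩

lemma edge_disj {a b c d : Fin 5} (h1 : a ≠ c) (h2 : a ≠ d) (h3 : b ≠ c) (h4 : b ≠ d) :
    Disjoint (edge a b) (edge c d) := by
  rw [Set.disjoint_left]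
  rintro x ⟨t, -, rfl⟩ ⟨s, -, hs⟩
  have hs' : pt c d s = pt a b t := congrArg Subtype.val hs
  have hab : a ≠ b ∨ a = b := (eq_or_ne a b).symm
  -- the coordinate sum over a and b is one on the first edge and zero on the second
  rcases hab with hab | hab
  · have e1 := congrFun hs' a
    have e2 := congrFun hs' b
    rw [pt_other h1 h2, pt_left hab] at e1
    rw [pt_other h3 h4, pt_right hab] at e2
    linarith
  · subst hab
    have e1 := congrFun hs' a
    rw [pt_other h1 h2, pt_self] at e1
    simp at e1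

/-- Every nondegenerate closed connected subset of the space has an interior point. -/
theorem interior_nonempty (L : Set Sp) (hL : IsClosed L) (hc : IsConnected L)
    (hn : L.Nontrivial) : ∃ U : Set Sp, IsOpen U ∧ U.Nonempty ∧ U ⊆ L := by
  obtain ⟨x, hx, y, hy, hxy⟩ := hn
  -- a coordinate which distinguishes the two points
  have hex : ∃ i, (x : Fin 5 → ℝ) i ≠ (y : Fin 5 → ℝ) i := by
    by_contra hcon
    push Not at hcon
    exact hxy (Subtype.ext (funext hcon))
  obtain ⟨i, hi⟩ := hex
  wlog hlt : (x : Fin 5 → ℝ) i < (y : Fin 5 → ℝ) i generalizing x y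
  · exact this y hy x hx hxy.symm hi.symm (lt_of_le_of_ne (not_lt.1 hlt) hi.symm)
  have hcont : Continuous (fun z : Sp => (z : Fin 5 → ℝ) i) :=
    (continuous_apply i).comp continuous_subtype_val
  have himg : IsPreconnected ((fun z : Sp => (z : Fin 5 → ℝ) i) '' L) :=
    hc.isPreconnected.image _ hcont.continuousOn
  have hIcc : Icc ((x : Fin 5 → ℝ) i) ((y : Fin 5 → ℝ) i) ⊆ (fun z : Sp => (z : Fin 5 → ℝ) i) '' L :=
    himg.Icc_subset ⟨x, hx, rfl⟩ ⟨y, hy, rfl⟩
  -- the closed sets of parameters
  let L' : Set (Fin 5 → ℝ) := Subtype.val '' L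
  have hL' : IsClosed L' := (hL.isCompact.image continuous_subtype_val).isClosed
  have hL'c : L' ⊆ carrier := by
    rintro _ ⟨z, -, rfl⟩
    exact z.2
  let C : Fin 5 → Set ℝ := fun j => (pt j i) ⁻¹' L'
  have hC : ∀ j, IsClosed (C j) := fun j => hL'.preimage (pt_cont j i)
  have hbounds : ∀ z ∈ carrier, ∀ k, 0 ≤ z k ∧ z k ≤ 1 := by
    rintro z ⟨a, b, t, ht, rfl⟩ k
    by_cases hab : a = b
    · subst hab
      rw [pt_self, Pi.single_apply]
      split_ifs <;> norm_num
    · by_cases h1 : k = a
      · subst h1; rw [pt_left hab]; exact ⟨by linarith [ht.2], by linarith [ht.1]⟩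
      · by_cases h2 : k = b
        · subst h2; rw [pt_right hab]; exact ht
        · rw [pt_other h1 h2]; norm_num
  -- covering
  have hcov : ∀ c ∈ Ioo ((x : Fin 5 → ℝ) i) ((y : Fin 5 → ℝ) i), ∃ j, j ≠ i ∧ c ∈ C j := by
    intro c hcI
    obtain ⟨z, hz, hzc⟩ := hIcc ⟨hcI.1.le, hcI.2.le⟩
    have hzc' : (z : Fin 5 → ℝ) i = c := hzc
    have hc0 : 0 < c := lt_of_le_of_lt (hbounds _ x.2 i).1 hcI.1
    have hc1 : c < 1 := lt_of_lt_of_le hcI.2 (hbounds _ y.2 i).2
    obtain ⟨a, b, t, ht, hzt⟩ := z.2
    have hab : a ≠ b := by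
      rintro rfl
      rw [hzt, pt_self, Pi.single_apply] at hzc'
      split_ifs at hzc'
      · linarith
      · linarith
    by_cases h1 : i = a
    · refine ⟨b, fun h => hab (h1.symm.trans h.symm), ?_⟩
      show pt b i c ∈ L'
      refine ⟨z, hz, ?_⟩
      rw [hzt, ← h1, pt_swap b i]
      rw [hzt, ← h1, pt_left (h1 ▸ hab)] at hzc'
      rw [← hzc']
      congr 1
      ring
    · by_cases h2 : i = b
      · refine ⟨a, fun h => h1 h.symm, ?_⟩
        show pt a i c ∈ L'
        refine ⟨z, hz, ?_⟩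
        rw [hzt, ← h2]
        rw [hzt, ← h2, pt_right (h2 ▸ hab)] at hzc'
        rw [hzc']
      · exfalso
        rw [hzt, pt_other h1 h2] at hzc'
        linarith
  -- Baire
  have hint : ∃ j, j ≠ i ∧ (interior (C j)).Nonempty := by
    by_contra hcon
    push Not at hcon
    have hd : Dense (⋂ j : {j : Fin 5 // j ≠ i}, (C j)ᶜ) := by
      refine dense_iInter_of_isOpen (fun j => (hC j).isOpen_compl) (fun j => ?_)
      rw [← interior_eq_empty_iff_dense_compl]
      exact hcon j.1 j.2
    obtain ⟨c, hcI, hcm⟩ := hd.inter_open_nonempty (Ioo ((x : Fin 5 → ℝ) i) ((y : Fin 5 → ℝ) i))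
      isOpen_Ioo (nonempty_Ioo.2 hlt)
    obtain ⟨j, hj, hcj⟩ := hcov c hcI
    exact (mem_iInter.1 hcm ⟨j, hj⟩) hcj
  obtain ⟨j, hji, hj⟩ := hint
  -- the interior lies in (0, 1)
  have hsub : C j ⊆ Icc 0 1 := by
    intro c hcj
    have := hbounds _ (hL'c hcj) i
    rw [pt_right hji] at this
    exact this
  have hsub' : interior (C j) ⊆ Ioo 0 1 := by
    have := interior_mono hsub
    rwa [interior_Icc] at this
  refine ⟨{z : Sp | (z : Fin 5 → ℝ) i ∈ interior (C j) ∧ 0 < (z : Fin 5 → ℝ) j}, ?_, ?_, ?_⟩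
  · refine IsOpen.inter (isOpen_interior.preimage hcont) ?_
    exact isOpen_lt continuous_const ((continuous_apply j).comp continuous_subtype_val)
  · obtain ⟨c, hcj⟩ := hj
    have hc01 := hsub' hcj
    refine ⟨⟨pt j i c, j, i, c, ⟨hc01.1.le, hc01.2.le⟩, rfl⟩, ?_, ?_⟩
    · show pt j i c i ∈ _
      rw [pt_right hji]
      exact hcj
    · show 0 < pt j i c j
      rw [pt_left hji]
      linarith [hc01.2]
  · rintro ⟨z, hz⟩ ⟨h1, h2⟩
    obtain ⟨a, b, t, ht, rfl⟩ := hz
    have h1' : pt a b t i ∈ interior (C j) := h1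
    have h2' : 0 < pt a b t j := h2
    have h01 := hsub' h1'
    have hab : a ≠ b := by
      rintro rfl
      rw [pt_self, Pi.single_apply] at h01
      split_ifs at h01
      · exact lt_irrefl _ h01.2
      · exact lt_irrefl _ h01.1
    have key : pt a b t = pt j i (pt a b t i) := by
      by_cases hia : i = a
      · have hjb : j = b := by
          by_contra hne
          rw [pt_other (fun h => hji (h.trans hia.symm)) hne] at h2'
          exact lt_irrefl _ h2'
        subst hia; subst hjb
        rw [pt_left hab, pt_swap j i]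
        congr 1
        ring
      · have hib : i = b := by
          by_contra hne
          rw [pt_other hia hne] at h01
          exact lt_irrefl _ h01.1
        have hja : j = a := by
          by_contra hne
          rw [pt_other hne (fun h => hji (h.trans hib.symm))] at h2'
          exact lt_irrefl _ h2'
        subst hib; subst hja
        rw [pt_right hab]
    have h3 : pt a b t i ∈ C j := interior_subset h1'
    have h4 : pt j i (pt a b t i) ∈ L' := h3
    rw [← key] at h4
    obtain ⟨w, hw, hwz⟩ := h4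
    have : w = ⟨pt a b t, a, b, t, ht, rfl⟩ := Subtype.ext hwz
    rw [← this]
    exact hw

end Pool.Agent.K1H58.K5
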